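import Mathlib
import Pool.Agent.X200.SnLower

/-!
MP_e04a0d_gt: if the topology of a metrizable space is the intersection of `m` zero-dimensional
metrizable extensions then its covering dimension is at most `m + m ^ 2 + ... + m ^ m - 1`.
-/

namespace Pool.Agent.Results.MP_e04a0d_gt.FiniteBound

open Set Pool.Agent.X200.Sn

theorem result {X : Type*} (t : TopologicalSpace X)
    (ht : @TopologicalSpace.MetrizableSpace X t) (m : ℕ) (τ : Fin m → TopologicalSpace X)
    (hτ : IsInter t τ) : DimLE t ((∑ j ∈ Finset.Icc 1 m, m ^ j) - 1) := by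
  have h := dim_bound' t ht τ (fun i => (hτ.1 i).2.2) hτ.2
  rw [Nat.card_eq_fintype_card, Fintype.card_fin] at h
  exact h

end Pool.Agent.Results.MP_e04a0d_gt.FiniteBound
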