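import Mathlib
import Pool.Agent.X200.SnLower
import Pool.Agent.X200.SnUpper

/-!
MP_e04a0d_gt, Q1: the structural number of an infinite-dimensional countable-dimensional
metrizable space with respect to zero-dimensional metrizable extensions is the first infinite
cardinal.
-/

namespace Pool.Agent.Results.MP_e04a0d_gt.StructuralNumber

open Set Pool.Agent.X200.Sn

universe u

theorem result {X : Type u} (t : TopologicalSpace X)
    (ht : @TopologicalSpace.MetrizableSpace X t) (hc : CountableDim t) (hd : ∀ n, ¬ DimLE t n) :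
    IsLeast {κ : Cardinal.{u} | ∃ (ι : Type u) (τ : ι → TopologicalSpace X),
      Cardinal.mk ι = κ ∧ IsInter t τ} Cardinal.aleph0 := by
  constructor
  · obtain ⟨τ, hτ1, hτ2⟩ := upper t ht hc
    refine ⟨ULift.{u} ℕ, fun i => τ i.down, by simp, fun i => hτ1 i.down, fun U => ?_⟩
    rw [hτ2 U]
    exact ⟨fun h i => h i.down, fun h i => h ⟨i⟩⟩
  · rintro κ ⟨ι, τ, rfl, hτ1, hτ2⟩
    by_contra hlt
    have hfin : Finite ι := Cardinal.lt_aleph0_iff_finite.1 (not_le.1 hlt)
    exact hd _ (dim_bound' t ht τ (fun i => (hτ1 i).2.2) hτ2)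

end Pool.Agent.Results.MP_e04a0d_gt.StructuralNumber
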